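import Pool.Agent.Helper14.TT.StU

/-!
# Project TT, module BalS: transport to the balanced form, with signs
-/

set_option autoImplicit false

namespace Pool.Agent.Helper71.TT

open Pool.Agent.Helper14.TT Pool.Agent.Helper14.CV
open Pool.Agent.Helper76.TX (NewSymS BalES BalOS)

private theorem two_ne (k : ℕ) : (2 : ℤ) ^ k ≠ 0 := pow_ne_zero _ two_ne_zero

private theorem ne_of {k : ℕ} {p q : ℤ} (h : p ≠ 0 ∨ q ≠ 0) : p ≠ 0 ∨ (2 : ℤ) ^ k * q ≠ 0 := by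
  rcases h with h | h
  · exact Or.inl h
  · exact Or.inr (mul_ne_zero (two_ne k) h)

private theorem homogH {k : ℕ} {G : ℤ → ℤ → ℂ} (hG : Homog G) : Homog (act 1 0 0 (2 ^ k) G) := by
  intro l p q hl hpq
  simp only [act]
  have h := hG l p (2 ^ k * q) hl (ne_of hpq)
  rw [show 1 * (l * p) + 0 * (l * q) = l * p by ring,
    show 0 * (l * p) + 2 ^ k * (l * q) = l * (2 ^ k * q) by ring, h,
    show 1 * p + 0 * q = p by ring, show 0 * p + 2 ^ k * q = 2 ^ k * q by ring]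

private theorem symH {k s s' : ℕ} {G : ℤ → ℤ → ℂ} (hs : s' ≤ k + s) (hG : Sym 0 s' G) :
    Sym k s (act 1 0 0 (2 ^ k) G) := by
  refine ⟨homogH hG.1, ?_⟩
  intro a b c d hdet hb hc
  obtain ⟨b', rfl⟩ := hb
  obtain ⟨c', rfl⟩ := hc
  obtain ⟨C, hC⟩ := hG.2 a b' (2 ^ k * (2 ^ s * c')) d (by linear_combination hdet)
    (by rw [pow_zero]; exact one_dvd _) (by
      have h1 : (2 : ℤ) ^ s' ∣ 2 ^ (k + s) := pow_dvd_pow 2 hs
      have h2 : (2 : ℤ) ^ k * (2 ^ s * c') = 2 ^ (k + s) * c' := by rw [pow_add]; ring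
      rw [h2]
      exact Dvd.dvd.mul_right h1 c')
  refine ⟨C, ?_⟩
  intro p q hpq
  have h := hC p (2 ^ k * q) (ne_of hpq)
  simp only [act] at h ⊢
  rw [show 1 * (a * p + 2 ^ k * b' * q) + 0 * (2 ^ s * c' * p + d * q)
      = a * p + b' * (2 ^ k * q) by ring,
    show 0 * (a * p + 2 ^ k * b' * q) + 2 ^ k * (2 ^ s * c' * p + d * q)
      = 2 ^ k * (2 ^ s * c') * p + d * (2 ^ k * q) by ring, h,
    show 1 * p + 0 * q = p by ring, show 0 * p + 2 ^ k * q = 2 ^ k * q by ring]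

/-- The general transport of a relation. -/
private theorem trans {k : ℕ} {G K : ℤ → ℤ → ℂ} {a b c d a' b' c' d' : ℤ}
    (hK : ∀ p q : ℤ, (p ≠ 0 ∨ q ≠ 0) → act a' b' c' d' (act 1 0 0 (2 ^ k) G) p q
      = act a b c d G p (2 ^ k * q))
    (h : EqC (act a b c d G) K) :
    EqC (act a' b' c' d' (act 1 0 0 (2 ^ k) G)) (act 1 0 0 (2 ^ k) K) := by
  obtain ⟨C, hC⟩ := h
  refine ⟨C, ?_⟩
  intro p q hpq
  rw [hK p q hpq, hC p (2 ^ k * q) (ne_of hpq)]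
  simp only [act]
  rw [show 1 * p + 0 * q = p by ring, show 0 * p + 2 ^ k * q = 2 ^ k * q by ring]

private theorem rel1 {k : ℕ} (hk : 1 ≤ k) {G : ℤ → ℤ → ℂ} (hG : Homog G)
    (h : EqC (act 2 1 0 2 G) (-G)) :
    EqC (act 1 (2 ^ (k - 1)) 0 1 (act 1 0 0 (2 ^ k) G)) (-(act 1 0 0 (2 ^ k) G)) := by
  obtain ⟨j, rfl⟩ : ∃ j, k = j + 1 := ⟨k - 1, by omega⟩
  have := trans (k := j + 1) (a' := 1) (b' := 2 ^ (j + 1 - 1)) (c' := 0) (d' := 1) (G := G)
    (by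
      intro p q hpq
      simp only [act, Nat.add_sub_cancel]
      have hne : p + 2 ^ j * q ≠ 0 ∨ 2 ^ (j + 1) * q ≠ 0 := by
        by_cases hq : q = 0
        · left
          rw [hq, mul_zero, add_zero]
          rcases hpq with h | h
          · exact h
          · exact absurd hq h
        · exact Or.inr (mul_ne_zero (two_ne _) hq)
      have h1 := hG 2 (p + 2 ^ j * q) (2 ^ (j + 1) * q) two_ne_zero hne
      rw [show 1 * (1 * p + 2 ^ j * q) + 0 * (0 * p + 1 * q) = p + 2 ^ j * q by ring,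
        show 0 * (1 * p + 2 ^ j * q) + 2 ^ (j + 1) * (0 * p + 1 * q) = 2 ^ (j + 1) * q by ring,
        show 2 * p + 1 * (2 ^ (j + 1) * q) = 2 * (p + 2 ^ j * q) by rw [pow_succ]; ring,
        show 0 * p + 2 * (2 ^ (j + 1) * q) = 2 * (2 ^ (j + 1) * q) by ring, h1]) h
  exact this

private theorem rel2 {k j l : ℕ} (hj : k + j = l) {G : ℤ → ℤ → ℂ}
    (h : EqC (act 1 0 (2 ^ l) 1 G) (-G)) :
    EqC (act 1 0 (2 ^ j) 1 (act 1 0 0 (2 ^ k) G)) (-(act 1 0 0 (2 ^ k) G)) := by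
  refine trans (k := k) (a' := 1) (b' := 0) (c' := 2 ^ j) (d' := 1) (G := G) ?_ h
  intro p q _
  simp only [act]
  rw [← hj]
  rw [show 1 * (1 * p + 0 * q) + 0 * (2 ^ j * p + 1 * q) = 1 * p + 0 * (2 ^ k * q) by ring,
    show 0 * (1 * p + 0 * q) + 2 ^ k * (2 ^ j * p + 1 * q)
      = 2 ^ (k + j) * p + 1 * (2 ^ k * q) by rw [pow_add]; ring]

private theorem rel3 {k l : ℕ} {e w : ℤ} (he : e ≠ 0) (hl : (2 : ℤ) ^ l = 2 ^ k * (2 ^ k * e))
    {G : ℤ → ℤ → ℂ} (hG : Homog G) (h : EqC (act 0 (-1) (2 ^ l) 0 G) (-(w • G))) :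
    EqC (act 0 (-1) e 0 (act 1 0 0 (2 ^ k) G)) (-(w • act 1 0 0 (2 ^ k) G)) := by
  refine trans (k := k) (a' := 0) (b' := -1) (c' := e) (d' := 0) (G := G) ?_ h
  intro p q hpq
  simp only [act]
  have hne : -q ≠ 0 ∨ 2 ^ k * (e * p) ≠ 0 := by
    rcases hpq with h | h
    · exact Or.inr (mul_ne_zero (two_ne _) (mul_ne_zero he h))
    · exact Or.inl (neg_ne_zero.2 h)
  have h1 := hG (2 ^ k) (-q) (2 ^ k * (e * p)) (two_ne k) hne
  rw [show 1 * (0 * p + -1 * q) + 0 * (e * p + 0 * q) = -q by ring,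
    show 0 * (0 * p + -1 * q) + 2 ^ k * (e * p + 0 * q) = 2 ^ k * (e * p) by ring,
    show 0 * p + -1 * (2 ^ k * q) = 2 ^ k * (-q) by ring,
    show 2 ^ l * p + 0 * (2 ^ k * q) = 2 ^ k * (2 ^ k * (e * p)) by rw [hl]; ring, h1]

private theorem rel4 {k : ℕ} {ε : ℤ} {G : ℤ → ℤ → ℂ} (h : EqC (act (-1) 0 0 1 G) (ε • G)) :
    EqC (act (-1) 0 0 1 (act 1 0 0 (2 ^ k) G)) (ε • act 1 0 0 (2 ^ k) G) := by
  refine trans (k := k) (a' := -1) (b' := 0) (c' := 0) (d' := 1) (G := G) ?_ h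
  intro p q _
  simp only [act]
  congr 1 <;> ring

theorem hBalS : BalS := by
  intro w ε k G hk
  refine ⟨?_, ?_, ?_⟩
  · rintro ⟨h1, h2, h3, h4, h5⟩
    exact ⟨symH (by omega) h1, rel1 hk h1.1 h2, rel2 (by omega) h3,
      rel3 one_ne_zero (by rw [mul_one, ← pow_add]; congr 1; omega) h1.1 h4, rel4 h5⟩
  · rintro ⟨h1, h2, h3, h4, h5⟩
    refine ⟨symH (by omega) h1, rel1 hk h1.1 h2, rel2 (by omega) h3, ?_, rel4 h5⟩
    exact rel3 two_ne_zero (by rw [← pow_succ, ← pow_add]; congr 1; omega) h1.1 h4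
  · rintro hG ⟨C, hC⟩
    refine ⟨C, ?_⟩
    intro p q hpq
    have hne : 2 ^ k * p ≠ 0 ∨ q ≠ 0 := by
      rcases hpq with h | h
      · exact Or.inl (mul_ne_zero (two_ne k) h)
      · exact Or.inr h
    have h1 := hC (2 ^ k * p) q hne
    simp only [act] at h1
    rw [show 1 * (2 ^ k * p) + 0 * q = 2 ^ k * p by ring,
      show 0 * (2 ^ k * p) + 2 ^ k * q = 2 ^ k * q by ring, hG (2 ^ k) p q (two_ne k) hpq] at h1
    exact h1

end Pool.Agent.Helper71.TT
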