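import Pool.Agent.Helper14.TT.StF

/-!
# Project TT, module Chi: the quadratic character modulo a prime
-/

set_option autoImplicit false

namespace Pool.Agent.Helper71.TT

open Pool.Agent.Helper14.TT

theorem hChi : Chi := by
  intro l hl hl2
  have : Fact l.Prime := ⟨hl⟩
  have : NeZero l := ⟨hl.ne_zero⟩
  set χ : DirichletCharacter ℂ l :=
    (quadraticChar (ZMod l)).ringHomComp (Int.castRingHom ℂ) with hχ
  have hq : χ.IsQuadratic := (quadraticChar_isQuadratic (ZMod l)).comp _
  have hval : ∀ m : ℕ, χ (m : ZMod l) = ((jacobiSym (m : ℤ) l : ℤ) : ℂ) := by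
    intro m
    rw [← jacobiSym.legendreSym.to_jacobiSym, legendreSym, hχ, MulChar.ringHomComp_apply]
    simp
  have hne : χ ≠ 1 := by
    intro h1
    apply quadraticChar_ne_one (F := ZMod l) (by rw [ZMod.ringChar_zmod_n]; exact hl2)
    ext u
    have h2 : χ (u : ZMod l) = 1 := by rw [h1]; exact MulChar.one_apply_coe u
    rw [hχ, MulChar.ringHomComp_apply] at h2
    rw [MulChar.one_apply_coe]
    have h3 : ((quadraticChar (ZMod l) (u : ZMod l) : ℤ) : ℂ) = 1 := h2
    exact_mod_cast h3
  refine ⟨χ, ?_, hval, fun m => ?_⟩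
  · rw [DirichletCharacter.isPrimitive_def]
    rcases (Nat.dvd_prime hl).mp (DirichletCharacter.conductor_dvd_level χ) with h | h
    · exact absurd (DirichletCharacter.eq_one_iff_conductor_eq_one.mpr h) hne
    · exact h
  · rw [hq.inv]
    exact hval m

end Pool.Agent.Helper71.TT
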